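import Pool.Agent.LSG.StmtsA

/-!
Squad LSG (MP_005a41_gt), row ZST (helper34): `X × ℤ` is l-stable.
-/

set_option autoImplicit false

open MeasureTheory Set Topology

namespace Pool.Agent.LSG.H34

/-- `X × ℤ` is a countable sum of copies of `X` -/
def homZ (X : Type) [TopologicalSpace X] : (X × ℤ) ≃ₜ (Σ _ : ℕ, X) where
  toFun p := ⟨Equiv.intEquivNat p.2, p.1⟩
  invFun q := (q.2, Equiv.intEquivNat.symm q.1)
  left_inv p := by
    rcases p with ⟨x, z⟩
    simp only [Equiv.symm_apply_apply]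
  right_inv q := by
    rcases q with ⟨n, x⟩
    simp only [Equiv.apply_symm_apply]
  continuous_toFun := by
    rw [continuous_prod_of_discrete_right]
    intro z
    exact (continuous_sigmaMk (σ := fun _ : ℕ => X) (i := Equiv.intEquivNat z))
  continuous_invFun := by
    rw [continuous_sigma_iff]
    intro n
    have h : Continuous fun x : X => (x, Equiv.intEquivNat.symm n) :=
      continuous_id.prodMk continuous_const
    exact h

/-- currying of sequences -/
def curryE (E : Type) [AddCommGroup E] [Module ℝ E] [TopologicalSpace E] :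
    (ℕ → E) ≃L[ℝ] (ℕ → ℕ → E) where
  toFun f := fun m n => f (Nat.pair m n)
  invFun g := fun k => g (Nat.unpair k).1 (Nat.unpair k).2
  map_add' f g := rfl
  map_smul' c f := rfl
  left_inv f := by
    funext k
    simp only [Nat.pair_unpair]
  right_inv g := by
    funext m n
    simp only [Nat.unpair_pair]
  continuous_toFun := by
    refine continuous_pi fun m => continuous_pi fun n => ?_
    exact continuous_apply _
  continuous_invFun := by
    refine continuous_pi fun k => ?_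
    exact (continuous_apply _).comp (continuous_apply _)

theorem zst (h1 : PelStmt) (h2 : CexStmt) (h3 : CpeStmt) (h4 : BriStmt) : ZstStmt := by
  intro X _ A hA
  have hA1 : LEmc A := (h4.2 _ A).mp hA
  have hA2 : Compl ↥(Cp A) ↥(Cp (X × ℤ)) := h2.1 _ A hA1
  obtain ⟨e1⟩ := h3.1 (X × ℤ) (Σ _ : ℕ, X) ⟨homZ X⟩
  obtain ⟨e2⟩ := h3.2.2.1 ℕ (fun _ => X)
  have e3 : ↥(Cp (X × ℤ)) ≃L[ℝ] (ℕ → ↥(Cp X)) := e1.trans e2
  have e4 : ↥(Cp (X × ℤ)) ≃L[ℝ] (ℕ → ↥(Cp (X × ℤ))) :=
    (e3.trans (curryE ↥(Cp X))).trans (ContinuousLinearEquiv.piCongrRight fun _ => e3.symm)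
  obtain ⟨e5⟩ := (h1 ↥(Cp (X × ℤ)) ↥(Cp A) ⟨e4⟩).2 hA2
  obtain ⟨e6⟩ := h3.2.1 (X × ℤ) A
  exact (h4.1 _ _).mpr ⟨e5.trans e6.symm⟩

end Pool.Agent.LSG.H34
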