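import Pool.Agent.LSG.Stmts

/-!
Squad LSG (MP_005a41_gt), row TRC (helper34): open sets have measurable traces.
-/

set_option autoImplicit false

open MeasureTheory Set Topology

namespace Pool.Agent.LSG.H34

theorem trc : TrcStmt := by
  intro G k U hU i
  have hc : Continuous fun x : G => ((x, i) : G × Fin k) := by fun_prop
  have ho : IsOpen ((fun x : G => ((x, i) : G × Fin k)) ⁻¹' U) := hU.preimage hc
  obtain ⟨V, hV, hVU⟩ := isOpen_induced_iff.mp ho
  refine ⟨V, hV.measurableSet, fun x hx => ?_⟩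
  have h2 : (⟨x, hx⟩ : G) ∈ (Subtype.val ⁻¹' V : Set G) ↔
      (⟨x, hx⟩ : G) ∈ ((fun x : G => ((x, i) : G × Fin k)) ⁻¹' U) := by
    rw [hVU]
  exact h2

end Pool.Agent.LSG.H34
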